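import Pool.Agent.E8helper91.ZK.Ideal
import Pool.Agent.E8helper91.ZO.Final

/-!
# Good morphisms are numerically concentrated on the range of the idempotent
-/

set_option autoImplicit false
set_option linter.unusedSectionVars false

open CategoryTheory Limits MonoidalCategory Module
open Pool.Agent.Y112.SR Pool.Agent.Y112.KD Pool.Agent.Y112.SC Pool.Agent.Y133.Half
open Pool.Agent.E8helper91.ZO

namespace Pool.Agent.E8helper91.ZK

universe v u w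

open Functor.LaxMonoidal Functor.OplaxMonoidal

section

variable {C : Type u} [Category.{v} C] [Preadditive C] [Linear ℚ C] [MonoidalCategory C]
  [MonoidalPreadditive C] [MonoidalLinear ℚ C] [SymmetricCategory C] [RightRigidCategory C]
  {K : Type w} [Field K] {R : SuperRealisation C K}

lemma opAt_zero {M : C} (c : R.H.obj M ⟶ R.H.obj M) (N : C) (n : ℕ) :
    opAt R c N (n + 1) 0 = bx R c (𝟙 _) := rfl

lemma opAt_succ {M : C} (c : R.H.obj M ⟶ R.H.obj M) (N : C) (n m : ℕ) :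
    opAt R c N (n + 1) (m + 1) = bx R (𝟙 _) (opAt R c N n m) := rfl

/-- The main lemma for one factor. -/
lemma one_factor {M Z P : C} {ι : Type*} {c : ι → (R.H.obj M ⟶ R.H.obj M)}
    {e : R.H.obj M ⟶ R.H.obj M} (he : e ∈ idJ c)
    (htr : ∀ u ∈ idJ c, st R ((𝟙 _ - e) ≫ u) = 0) {f : P ⟶ M ⊗ Z}
    (hf : ∀ i, Algebraic R (R.H.map f ≫ bx R (c i) (𝟙 (R.H.obj Z)))) :
    NZ R (R.H.map f ≫ bx R (𝟙 _ - e) (𝟙 _)) := by
  apply NZ.of_map
  intro g
  have hgO : 𝟙 _ - e ∈ Op R M M := Submodule.sub_mem _ (Op.id M) (idJ_Op he)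
  have hu : ptr (g ≫ f) ∈ idI c := by
    intro i
    obtain ⟨w, hw⟩ := hf i
    refine ⟨ptr (g ≫ w), ?_⟩
    rw [← PT_map, ← PT_map, Functor.map_comp, hw, Functor.map_comp, ← Category.assoc, PT_right]
  have h2 := htr _ (Submodule.subset_span ⟨_, hu, rfl⟩)
  have h3 : st R ((R.H.map f ≫ bx R (𝟙 _ - e) (𝟙 _)) ≫ R.H.map g) =
      st R (R.H.map g ≫ R.H.map f ≫ bx R (𝟙 _ - e) (𝟙 _)) := st_comm R (R.par_natural g)
  rw [h3, ← Category.assoc, ← st_PT, PT_right, ← Functor.map_comp, PT_map,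
    st_comm R (Op.par hgO)]
  exact h2

lemma stepA {V M Z P : C} {ι : Type*} {c : ι → (R.H.obj M ⟶ R.H.obj M)}
    (hcp : ∀ i, c i ≫ R.par M = R.par M ≫ c i) {e : R.H.obj M ⟶ R.H.obj M} (he : e ∈ idJ c)
    (htr : ∀ u ∈ idJ c, st R ((𝟙 _ - e) ≫ u) = 0) {f : P ⟶ V ⊗ (M ⊗ Z)}
    (hf : ∀ i, Algebraic R (R.H.map f ≫ bx R (𝟙 _) (bx R (c i) (𝟙 (R.H.obj Z))))) :
    NZ R (R.H.map f - R.H.map f ≫ bx R (𝟙 _) (bx R e (𝟙 _))) := by
  have hgO : 𝟙 _ - e ∈ Op R M M := Submodule.sub_mem _ (Op.id M) (idJ_Op he)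
  have h2 := one_factor (Z := V ⊗ Z) he htr (f := f ≫ (mv V M Z).hom) (fun i => by
    obtain ⟨w, hw⟩ := hf i
    refine ⟨w ≫ (mv V M Z).hom, ?_⟩
    have h1 := mv_nat (R := R) (V := V) (M := M) (Z := Z) (𝟙 _) one_par
      (b := c i) (hcp i)
    rw [Functor.map_comp, Functor.map_comp, hw, Category.assoc, Category.assoc, h1, bx_one])
  have h3 := mv_nat (R := R) (V := V) (M := M) (Z := Z) (𝟙 _) one_par
    (b := 𝟙 _ - e) (Op.par hgO)
  have h4 := NZ.comp_right h2 (Op.map (mv V M Z).inv)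
  have h5 : R.H.map (mv V M Z).hom ≫ R.H.map (mv V M Z).inv = 𝟙 _ := by
    rw [← Functor.map_comp, Iso.hom_inv_id, CategoryTheory.Functor.map_id]
  have h6 : (R.H.map (f ≫ (mv V M Z).hom) ≫ bx R (𝟙 _ - e) (𝟙 _)) ≫ R.H.map (mv V M Z).inv =
      R.H.map f - R.H.map f ≫ bx R (𝟙 _) (bx R e (𝟙 _)) := by
    have h7 : R.H.map (mv V M Z).hom ≫ bx R (𝟙 _ - e) (𝟙 _) ≫ R.H.map (mv V M Z).inv =
        bx R (𝟙 _) (bx R (𝟙 _ - e) (𝟙 _)) := by
      rw [← bx_one R V Z, ← Category.assoc, ← h3, Category.assoc, h5, Category.comp_id]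
    rw [Functor.map_comp, Category.assoc, Category.assoc, h7, bx_sub_left, bx_sub_right, bx_one,
      bx_one, Preadditive.comp_sub, Category.comp_id]
  rwa [h6] at h4

lemma stepB1 {V M Z P : C} {a : R.H.obj Z ⟶ R.H.obj Z} {f : P ⟶ V ⊗ (M ⊗ Z)}
    (h : Algebraic R (R.H.map f ≫ bx R (𝟙 _) (bx R (𝟙 (R.H.obj M)) a))) :
    Algebraic R (R.H.map (f ≫ (α_ V M Z).inv) ≫ bx R (𝟙 _) a) := by
  obtain ⟨w, hw⟩ := h
  refine ⟨w ≫ (α_ V M Z).inv, ?_⟩
  rw [Functor.map_comp, Functor.map_comp, hw, Category.assoc, Category.assoc, assoc_one]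

lemma multi {M P N : C} {ι : Type*} {c : ι → (R.H.obj M ⟶ R.H.obj M)}
    (hcp : ∀ i, c i ≫ R.par M = R.par M ≫ c i) {e : R.H.obj M ⟶ R.H.obj M} (he : e ∈ idJ c)
    (htr : ∀ u ∈ idJ c, st R ((𝟙 _ - e) ≫ u) = 0) (n : ℕ) :
    ∀ (V : C) (f : P ⟶ V ⊗ tw M N n), (∀ i, ∀ m < n,
      Algebraic R (R.H.map f ≫ bx R (𝟙 (R.H.obj V)) (opAt R (c i) N n m))) →
      NZ R (R.H.map f - R.H.map f ≫ bx R (𝟙 _) (pin R M N e n)) := by
  induction n with
  | zero =>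
    intro V f _
    have h1 : bx R (𝟙 (R.H.obj V)) (pin R M N e 0) = 𝟙 _ := bx_one R V N
    rw [h1, Category.comp_id, sub_self]
    exact NZ.zero
  | succ n ih =>
    intro V f hf
    refine stepD (Z := tw M N n) (idJ_Op he) ?_ ?_
    · exact stepA (Z := tw M N n) hcp he htr fun i => hf i 0 (Nat.succ_pos n)
    · refine stepB (Z := tw M N n) (ih (V ⊗ M) _ fun i m hm => ?_)
      exact stepB1 (Z := tw M N n) (hf i (m + 1) (Nat.succ_lt_succ hm))

/-- Good morphisms are numerically concentrated on the range of the power of the idempotent. -/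
lemma good_conc {M P N : C} {ι : Type*} {c : ι → (R.H.obj M ⟶ R.H.obj M)}
    (hcp : ∀ i, c i ≫ R.par M = R.par M ≫ c i) {e : R.H.obj M ⟶ R.H.obj M} (he : e ∈ idJ c)
    (htr : ∀ u ∈ idJ c, st R ((𝟙 _ - e) ≫ u) = 0) (n : ℕ) {f : P ⟶ tw M N n}
    (hf : f ∈ good R c N P n) : NZ R (R.H.map f - R.H.map f ≫ pin R M N e n) := by
  have h5 : R.H.map (λ_ (tw M N n)).inv ≫ R.H.map (λ_ (tw M N n)).hom = 𝟙 _ := by
    rw [← Functor.map_comp, Iso.inv_hom_id, CategoryTheory.Functor.map_id]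
  have h5' : R.H.map (λ_ (tw M N n)).hom ≫ R.H.map (λ_ (tw M N n)).inv = 𝟙 _ := by
    rw [← Functor.map_comp, Iso.hom_inv_id, CategoryTheory.Functor.map_id]
  have h3 : ∀ (a : R.H.obj (tw M N n) ⟶ R.H.obj (tw M N n)),
      a ≫ R.H.map (λ_ (tw M N n)).inv = R.H.map (λ_ (tw M N n)).inv ≫ bx R (𝟙 _) a := by
    intro a
    have h4 := bx_unit R a
    calc a ≫ R.H.map (λ_ (tw M N n)).inv
        = R.H.map (λ_ (tw M N n)).inv ≫ (R.H.map (λ_ (tw M N n)).hom ≫ a) ≫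
            R.H.map (λ_ (tw M N n)).inv := by
          rw [Category.assoc, reassoc_of% h5]
      _ = _ := by rw [← h4, Category.assoc, h5', Category.comp_id]
  have h6 := multi hcp he htr n (𝟙_ C) (f ≫ (λ_ (tw M N n)).inv) (fun i m hm => by
    obtain ⟨w, hw⟩ := hf i m hm
    refine ⟨w ≫ (λ_ (tw M N n)).inv, ?_⟩
    rw [Functor.map_comp, Functor.map_comp, hw, Category.assoc, Category.assoc,
      h3 (opAt R (c i) N n m)])
  have h7 := NZ.comp_right h6 (Op.map (λ_ (tw M N n)).hom)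
  have h9 : (R.H.map (f ≫ (λ_ (tw M N n)).inv) -
      R.H.map (f ≫ (λ_ (tw M N n)).inv) ≫ bx R (𝟙 _) (pin R M N e n)) ≫
        R.H.map (λ_ (tw M N n)).hom = R.H.map f - R.H.map f ≫ pin R M N e n := by
    rw [Preadditive.sub_comp, Functor.map_comp]
    simp only [Category.assoc]
    rw [bx_unit, h5, reassoc_of% h5, Category.comp_id]
  rwa [h9] at h7

/-- Products with the tensor power of an element of the ideal are good. -/
lemma pinC_opAt {M : C} {c : R.H.obj M ⟶ R.H.obj M} {u w : M ⟶ M}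
    (hw : R.H.map w = R.H.map u ≫ c) (N : C) : ∀ n m : ℕ,
    Algebraic R (R.H.map (pinC M N u n) ≫ opAt R c N n m)
  | 0, m => ⟨𝟙 _, by
      change R.H.map (𝟙 N) = R.H.map (𝟙 N) ≫ 𝟙 _
      rw [Category.comp_id]⟩
  | n + 1, 0 => ⟨w ⊗ₘ pinC M N u n, by
      change R.H.map (w ⊗ₘ pinC M N u n) = R.H.map (u ⊗ₘ pinC M N u n) ≫ bx R c (𝟙 _)
      rw [← bx_map, ← bx_map, bx_comp, hw, Category.comp_id]⟩
  | n + 1, m + 1 => by
      obtain ⟨z, hz⟩ := pinC_opAt hw N n m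
      refine ⟨u ⊗ₘ z, ?_⟩
      change R.H.map (u ⊗ₘ z) = R.H.map (u ⊗ₘ pinC M N u n) ≫ bx R (𝟙 _) (opAt R c N n m)
      rw [← bx_map, ← bx_map, bx_comp, hz, Category.comp_id]

lemma good_of_idI {M : C} {ι : Type*} {c : ι → (R.H.obj M ⟶ R.H.obj M)} {u : M ⟶ M}
    (hu : u ∈ idI c) (P N : C) (n : ℕ) (f : P ⟶ tw M N n) :
    f ≫ pinC M N u n ∈ good R c N P n := by
  intro i m _
  obtain ⟨w, hw⟩ := hu i
  obtain ⟨z, hz⟩ := pinC_opAt hw N n m
  exact ⟨f ≫ z, by rw [Functor.map_comp, Functor.map_comp, hz, Category.assoc]⟩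

end

end Pool.Agent.E8helper91.ZK
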