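import Pool.Agent.E8helper91.ZO.Defs

/-!
# Components of morphisms to `M ⊗ (M ⊗ (⋯ ⊗ N))` with respect to operators on the realisation of `M`
-/

set_option autoImplicit false

open CategoryTheory Limits MonoidalCategory
open Pool.Agent.Y112.SR Pool.Agent.Y112.KD Pool.Agent.E8helper91.ZO

namespace Pool.Agent.E8helper91.ZK

universe v u w

open Functor.LaxMonoidal Functor.OplaxMonoidal

section Comp

variable {C : Type u} [Category.{v} C] [Preadditive C] [MonoidalCategory C] [SymmetricCategory C]
  {K : Type w} [Field K] (R : SuperRealisation C K)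

/-- The operator `x` is the realisation of a morphism. -/
def Algebraic {P Q : C} (x : R.H.obj P ⟶ R.H.obj Q) : Prop := ∃ w : P ⟶ Q, R.H.map w = x

/-- The operator `c` on the factor `M` with the number `m < n` (counted from zero) of the
realisation of `M ⊗ (⋯ ⊗ (M ⊗ N))`, tensored with the identity on the other factors. -/
noncomputable def opAt {M : C} (c : R.H.obj M ⟶ R.H.obj M) (N : C) :
    ∀ n : ℕ, ℕ → (R.H.obj (tw M N n) ⟶ R.H.obj (tw M N n))
  | 0, _ => 𝟙 _
  | n + 1, 0 => δ R.H M (tw M N n) ≫ (c ⊗ₘ 𝟙 _) ≫ μ R.H M (tw M N n)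
  | n + 1, m + 1 => δ R.H M (tw M N n) ≫ (𝟙 _ ⊗ₘ opAt c N n m) ≫ μ R.H M (tw M N n)

/-- The good morphisms `P ⟶ M ⊗ (⋯ ⊗ (M ⊗ N))` for a family of operators `c i`: for each of the
operators and for each of the `n` factors `M`, the composition of the realisation with the operator
on this factor is again the realisation of a morphism. -/
def good {M : C} {ι : Type*} (c : ι → (R.H.obj M ⟶ R.H.obj M)) (N P : C) (n : ℕ) :
    Set (P ⟶ tw M N n) :=
  {f | ∀ i, ∀ m < n, Algebraic R (R.H.map f ≫ opAt R (c i) N n m)}

/-- A family of projectors `π i` of the realisation of `M`, with sum one, which commute with the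
realisations of all endomorphisms of `M` and each of which projects to a subspace of the even or of
the odd part. For example, `M` is the motive of a smooth projective variety `X`, the realisation is
a Weil cohomology theory, and the `π i` are the Künneth projectors `H(X) → H^i(X)`. -/
structure Projectors (M : C) (ι : Type*) [Fintype ι] where
  π : ι → (R.H.obj M ⟶ R.H.obj M)
  idem : ∀ i, π i ≫ π i = π i
  sum_eq : ∑ i, π i = 𝟙 _
  comm : ∀ (i : ι) (f : M ⟶ M), R.H.map f ≫ π i = π i ≫ R.H.map f
  comm_par : ∀ i, π i ≫ R.par M = R.par M ≫ π i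
  parity : ∀ i, π i ≫ R.par M = π i ∨ π i ≫ R.par M = -π i

end Comp

section Num

variable {C : Type u} [Category.{v} C] [Preadditive C] [Linear ℚ C] [MonoidalCategory C]
  [MonoidalPreadditive C] [MonoidalLinear ℚ C] [SymmetricCategory C] [RightRigidCategory C]
  {K : Type w} [Field K] (R : SuperRealisation C K)

/-- The operators `c i` are algebraic modulo numerical equivalence: for some endomorphism `u` which
is numerically equivalent to the identity, all the products of `u` and a `c i` are algebraic. -/
def NumAlgebraic (hU : UnitQ C) {M : C} {ι : Type*} (c : ι → (R.H.obj M ⟶ R.H.obj M)) : Prop :=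
  ∃ u : M ⟶ M, NumZero hU (𝟙 M - u) ∧ ∀ i, Algebraic R (R.H.map u ≫ c i)

end Num

end Pool.Agent.E8helper91.ZK
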