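import Pool.Agent.E8helper91.ZK.Conc

/-!
# The laws for families of projectors
-/

set_option autoImplicit false
set_option linter.unusedSectionVars false

open CategoryTheory Limits MonoidalCategory Module
open Pool.Agent.Y112.SR Pool.Agent.Y112.KD Pool.Agent.Y112.SC Pool.Agent.Y133.Half
open Pool.Agent.E8helper91.ZO

namespace Pool.Agent.E8helper91.ZK

universe v u w

section

variable {C : Type u} [Category.{v} C] [Preadditive C] [Linear ℚ C] [MonoidalCategory C]
  [MonoidalPreadditive C] [MonoidalLinear ℚ C] [SymmetricCategory C] [RightRigidCategory C]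
  {K : Type w} [Field K] {R : SuperRealisation C K} (hU : UnitQ C) {M : C} {ι : Type*}
  {c : ι → (R.H.obj M ⟶ R.H.obj M)}

lemma one_mem_idI : 𝟙 M ∈ idI c ↔ ∀ i, Algebraic R (c i) := by
  rw [mem_idI, CategoryTheory.Functor.map_id]
  refine forall_congr' fun i => ?_
  rw [Category.id_comp]
  rfl

/-- If the operators are algebraic, all morphisms are good. -/
lemma good_univ (h : ∀ i, Algebraic R (c i)) (P N : C) (n : ℕ) : good R c N P n = Set.univ := by
  apply Set.eq_univ_of_forall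
  intro f
  have h1 := good_of_idI (one_mem_idI.2 h) P N n f
  rwa [pinC_id, Category.comp_id] at h1

include hU in
/-- Numerical approximation by good morphisms. -/
lemma approx (h : NumAlgebraic R hU c) (P N : C) (n : ℕ) (f : P ⟶ tw M N n) :
    ∃ f' ∈ good R c N P n, NumZero hU (f - f') := by
  obtain ⟨u, huN, hu⟩ := h
  refine ⟨f ≫ pinC M N u n, good_of_idI hu P N n f, ?_⟩
  have h1 : NZ R (𝟙 _ - R.H.map u) := by
    rw [← CategoryTheory.Functor.map_id, ← Functor.map_sub]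
    exact (numZero_iff hU _).1 huN
  have h3 := NZ_sub_pin (Op.map u) h1 N n
  rw [numZero_iff (R := R) hU, Functor.map_sub, Functor.map_comp, ← pin_eq]
  have h4 : R.H.map f - R.H.map f ≫ pin R M N (R.H.map u) n =
      R.H.map f ≫ (𝟙 _ - pin R M N (R.H.map u) n) := by
    rw [Preadditive.comp_sub, Category.comp_id]
  rw [h4]
  exact NZ.comp_left h3 (Op.map f)

lemma numDim_good_le {N P : C} {n : ℕ} :
    numDim hU (good R c N P n) ≤ numDim hU (Set.univ : Set (P ⟶ tw M N n)) := by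
  have hfin := finite_quot R hU P (tw M N n)
  exact Submodule.finrank_mono (Submodule.map_mono (Submodule.span_mono (Set.subset_univ _)))

/-- The exceptional case. -/
lemma exceptional (hc : ∀ i (f : M ⟶ M), R.H.map f ≫ c i = c i ≫ R.H.map f)
    (h : NumAlgebraic R hU c) (h1 : 𝟙 _ ∉ idJ c) :
    ∃ e ∈ Op R M M, e ≫ e = e ∧ NZ R (𝟙 _ - e) ∧ e ≠ 𝟙 _ ∧ rkI e + 2 ≤ dm R M := by
  obtain ⟨e, he, hee, htr⟩ := exists_eps c
  obtain ⟨u, huN, hu⟩ := h
  have hNZ := NZ_of_unit hc hU he htr hu huN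
  have he1 : e ≠ 𝟙 _ := by
    rintro rfl
    exact h1 he
  have heO := idJ_Op he
  exact ⟨e, heO, hee, hNZ, he1, rkI_add_two_le heO hee hNZ he1⟩

lemma exceptional_dim {e : R.H.obj M ⟶ R.H.obj M} (heO : e ∈ Op R M M) (hee : e ≫ e = e)
    (hNZ : NZ R (𝟙 _ - e)) (hrk : rkI e + 2 ≤ dm R M) (P N : C) (m n : ℕ) :
    numDim hU (Set.univ : Set (tw M P m ⟶ tw M N n)) ≤
      (dm R M - 2) ^ (m + n) * (dm R P * dm R N) := by
  have h1 : numDim hU (Set.univ : Set (tw M P m ⟶ tw M N n)) ≤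
      rB R (tw M P m) (tw M N n) (𝟙 _) (𝟙 _) :=
    numDim_le_rB hU fun f _ => by rw [Category.comp_id, sub_self]; exact NZ.zero
  have h2 := rB_le_rkI (pin_mem (N := N) heO n) (NZ_sub_pin heO hNZ P m) (NZ_sub_pin heO hNZ N n)
  rw [rkI_pin hee, rkI_pin hee] at h2
  refine h1.trans (h2.trans ?_)
  have h3 : rkI e ≤ dm R M - 2 := by omega
  calc rkI e ^ m * dm R P * (rkI e ^ n * dm R N)
      ≤ (dm R M - 2) ^ m * dm R P * ((dm R M - 2) ^ n * dm R N) := by gcongr
    _ = _ := by rw [pow_add]; ring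

/-- The exceptional case does not occur if the sign conjecture holds. -/
lemma not_num (hc : ∀ i (f : M ⟶ M), R.H.map f ≫ c i = c i ≫ R.H.map f) (hC : R.CPlus M)
    (h1 : 𝟙 _ ∉ idJ c) : ¬ NumAlgebraic R hU c := by
  intro h
  have hK := R_charZero R
  obtain ⟨e, heO, hee, hNZ, he1, -⟩ := exceptional hU hc h h1
  obtain ⟨w, hw⟩ := hC
  have hpar : R.par M ∈ Op R M M := by
    have h2 : 𝟙 _ + R.par M ∈ Op R M M := by
      rw [← hw]
      exact Submodule.smul_mem _ _ (Op.map w)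
    have h3 := Submodule.sub_mem _ h2 (Op.id M)
    rwa [add_sub_cancel_left] at h3
  set f := 𝟙 (R.H.obj M) - e with hf
  have hff : f ≫ f = f := by
    rw [hf, Preadditive.sub_comp, Preadditive.comp_sub, Preadditive.comp_sub, hee]
    simp
  have h4 := hNZ _ hpar
  rw [st, Category.assoc, R.par_sq, Category.comp_id, trace_eq_rkI hff] at h4
  have h5 : finrank K (LinearMap.range f.hom) = 0 := by exact_mod_cast h4
  have h6 : f = 0 := ModuleCat.hom_ext (LinearMap.range_eq_bot.1 (Submodule.finrank_eq_zero.1 h5))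
  rw [hf, sub_eq_zero] at h6
  exact he1 h6.symm

/-- The main case. -/
lemma main_case (hcp : ∀ i, c i ≫ R.par M = R.par M ≫ c i)
    (h : ¬ NumAlgebraic R hU c) (P N : C) (n : ℕ) :
    numDim hU (good R c N P n) ^ 2 * (dm R M ^ 2) ^ n ≤
      (dm R M ^ 2 - 1) ^ n * (numDim hU (Set.univ : Set (P ⟶ P)) *
        numDim hU (Set.univ : Set (tw M N n ⟶ tw M N n))) := by
  obtain ⟨e, he, hee, htr⟩ := exists_eps c
  have hN : ¬ NZ R (𝟙 _ - e) := fun hN => h (by
    obtain ⟨u, hu, huN⟩ := exists_unit hU he hN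
    exact ⟨u, huN, hu⟩)
  have heO := idJ_Op he
  have h1 : numDim hU (good R c N P n) ≤ rB R P (tw M N n) (𝟙 _) (pin R M N e n) :=
    numDim_le_rB hU fun f hf => good_conc hcp he htr n hf
  have h2 := cs P (tw M N n) (Op.id P) (Category.comp_id _) (pin_mem (N := N) heO n)
    (pin_idem hee n)
  have h3 := ratio (N := N) heO hee hN n
  have h4 := rB_le_numDim (R := R) hU P P
  have h5 := rB_le_numDim (R := R) hU (tw M N n) (tw M N n)
  calc numDim hU (good R c N P n) ^ 2 * (dm R M ^ 2) ^ n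
      ≤ (en R P (𝟙 _) * en R (tw M N n) (pin R M N e n)) * (dm R M ^ 2) ^ n :=
        Nat.mul_le_mul_right _ ((Nat.pow_le_pow_left h1 2).trans h2)
    _ = en R P (𝟙 _) * ((dm R M ^ 2) ^ n * en R (tw M N n) (pin R M N e n)) := by ring
    _ ≤ en R P (𝟙 _) * ((dm R M ^ 2 - 1) ^ n * en R (tw M N n) (𝟙 _)) :=
        Nat.mul_le_mul_left _ h3
    _ = (dm R M ^ 2 - 1) ^ n * (en R P (𝟙 _) * en R (tw M N n) (𝟙 _)) := by ring
    _ ≤ _ := Nat.mul_le_mul_left _ (Nat.mul_le_mul h4 h5)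

lemma dm_pos (h1 : 𝟙 _ ∉ idJ c) : 0 < dm R M := by
  by_contra h0
  apply h1
  have h2 : dm R M = 0 := by omega
  have h3 : Subsingleton (R.H.obj M) := Module.finrank_zero_iff.1 h2
  have h4 : 𝟙 (R.H.obj M) = 0 := by
    apply ModuleCat.hom_ext
    apply LinearMap.ext
    intro x
    exact Subsingleton.elim _ _
  rw [h4]
  exact Submodule.zero_mem _

/-- The gap. -/
lemma gap (hc : ∀ i (f : M ⟶ M), R.H.map f ≫ c i = c i ≫ R.H.map f)
    (hcp : ∀ i, c i ≫ R.par M = R.par M ≫ c i) (h1 : 𝟙 _ ∉ idJ c) (N : C) (n : ℕ) :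
    numDim hU (good R c N (tw M N n) n) ^ 2 ≤
      (dm R M ^ 2 * (dm R M ^ 2 - 1)) ^ n * dm R N ^ 4 := by
  have hb0 : 0 < dm R M := dm_pos h1
  by_cases h : NumAlgebraic R hU c
  · obtain ⟨e, heO, hee, hNZ, -, hrk⟩ := exceptional hU hc h h1
    have h4 := (numDim_good_le (R := R) (c := c) hU (N := N) (P := tw M N n) (n := n)).trans
      (exceptional_dim hU heO hee hNZ hrk N N n n)
    set b := dm R M
    have h5 : (b - 2) ^ 4 ≤ b ^ 2 * (b ^ 2 - 1) := pow4_le b (by omega)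
    calc numDim hU (good R c N (tw M N n) n) ^ 2
        ≤ ((b - 2) ^ (n + n) * (dm R N * dm R N)) ^ 2 := Nat.pow_le_pow_left h4 2
      _ = ((b - 2) ^ 4) ^ n * dm R N ^ 4 := by
        rw [mul_pow, ← pow_mul, ← pow_mul]
        congr 1
        · congr 1; ring
        · ring
      _ ≤ _ := Nat.mul_le_mul_right _ (Nat.pow_le_pow_left h5 n)
  · have h1 := main_case hU hcp h (tw M N n) N n
    have h2 := numDim_univ_le R hU (tw M N n) (tw M N n)
    rw [dm_tw] at h2
    set b := dm R M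
    have h3 : 0 < (b ^ 2) ^ n := by positivity
    apply Nat.le_of_mul_le_mul_right _ h3
    refine h1.trans ((Nat.mul_le_mul_left _ (Nat.mul_le_mul h2 h2)).trans (le_of_eq ?_))
    rw [mul_pow (b ^ 2) (b ^ 2 - 1) n, ← pow_mul]
    ring

/-- If the projectors are algebraic, the sign conjecture holds. -/
lemma cplus [Fintype ι] (p : Projectors R M ι) (h : ∀ i, Algebraic R (p.π i)) : R.CPlus M := by
  have hK := R_charZero R
  have h1 : ∀ i, ∃ w : M ⟶ M, R.H.map w = p.π i ≫ R.par M := by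
    intro i
    obtain ⟨w, hw⟩ := h i
    rcases p.parity i with h2 | h2
    · exact ⟨w, by rw [hw, h2]⟩
    · exact ⟨-w, by rw [h2, Functor.map_neg, hw]⟩
  choose w hw using h1
  refine ⟨(2 : ℚ)⁻¹ • (𝟙 M + ∑ i, w i), ?_⟩
  have h2 : R.H.map (∑ i, w i) = R.par M := by
    rw [Functor.map_sum]
    simp_rw [hw]
    rw [← Preadditive.sum_comp, p.sum_eq, Category.id_comp]
  have h2K : (2 : K) ≠ 0 := two_ne_zero
  rw [R_smul, Functor.map_add, h2, CategoryTheory.Functor.map_id, smul_smul]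
  push_cast
  rw [mul_inv_cancel₀ h2K, one_smul]

include hU in
/-- A subfamily of projectors is algebraic if it is algebraic over the coefficient field. -/
lemma not_mem_idJ [Fintype ι] (p : Projectors R M ι) {κ : Type*} (s : κ → ι)
    (h : ¬ ∀ j, Algebraic R (p.π (s j))) : 𝟙 _ ∉ idJ (fun j => p.π (s j)) := by
  intro h1
  apply h
  intro j
  refine alg_of_one hU (p.comm _) (p.idem _) (p.parity _) ?_
  refine Submodule.span_mono ?_ h1
  rintro _ ⟨f, hf, rfl⟩
  exact ⟨f, fun _ => hf j, rfl⟩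

lemma criterion_of_not_mem (hc : ∀ i (f : M ⟶ M), R.H.map f ≫ c i = c i ≫ R.H.map f)
    (hcp : ∀ i, c i ≫ R.par M = R.par M ≫ c i) (h0 : 𝟙 _ ∉ idJ c) :
    ¬ dm R M ^ (2 * (8 * dm R M ^ 6)) ≤
      numDim hU (good R c (𝟙_ C) (tw M (𝟙_ C) (8 * dm R M ^ 6)) (8 * dm R M ^ 6)) *
        (8 * dm R M ^ 6 + 1) ^ (dm R M ^ 2) := by
  intro h
  have hb0 : 0 < dm R M := dm_pos h0
  have hn := exists_gap (dm R M) hb0
  have h1 := gap hU hc hcp h0 (𝟙_ C) (8 * dm R M ^ 6)
  rw [dm_unit, one_pow, mul_one] at h1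
  have h2 := Nat.pow_le_pow_left h 2
  rw [mul_pow (numDim hU _)] at h2
  have h3 := h2.trans (Nat.mul_le_mul_right _ h1)
  exact absurd hn (not_lt.2 h3)

/-- The lower bound. -/
lemma lower (hC : R.CPlus M) (h : ∀ i, Algebraic R (c i)) (n : ℕ) :
    dm R M ^ (2 * n) ≤ numDim hU (good R c (𝟙_ C) (tw M (𝟙_ C) n) n) *
      (n + 1) ^ (dm R M ^ 2) := by
  rw [good_univ h]
  exact (growth hC n).trans (Nat.mul_le_mul_right _ (rB_le_numDim hU _ _))

/-- The criterion for a subfamily of the projectors, if the sign conjecture holds. -/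
lemma criterion_sub [Fintype ι] (p : Projectors R M ι) {κ : Type*} (s : κ → ι)
    (hC : R.CPlus M) : (∀ j, Algebraic R (p.π (s j))) ↔
    dm R M ^ (2 * (8 * dm R M ^ 6)) ≤
      numDim hU (good R (fun j => p.π (s j)) (𝟙_ C) (tw M (𝟙_ C) (8 * dm R M ^ 6))
        (8 * dm R M ^ 6)) * (8 * dm R M ^ 6 + 1) ^ (dm R M ^ 2) := by
  refine ⟨fun h => lower hU hC h _, fun h => ?_⟩
  by_contra hA
  exact criterion_of_not_mem hU (fun j f => p.comm (s j) f) (fun j => p.comm_par (s j))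
    (not_mem_idJ hU p s hA) h

/-- **The criterion.** -/
lemma criterion [Fintype ι] (p : Projectors R M ι) : (∀ i, Algebraic R (p.π i)) ↔
    dm R M ^ (2 * (8 * dm R M ^ 6)) ≤
      numDim hU (good R p.π (𝟙_ C) (tw M (𝟙_ C) (8 * dm R M ^ 6)) (8 * dm R M ^ 6)) *
        (8 * dm R M ^ 6 + 1) ^ (dm R M ^ 2) := by
  refine ⟨fun h => lower hU (cplus p h) h _, fun h => ?_⟩
  by_contra hA
  exact criterion_of_not_mem hU p.comm p.comm_par (not_mem_idJ hU p id hA) h

end

end Pool.Agent.E8helper91.ZK
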