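import Pool.Agent.E8helper91.ZK.Defs
import Pool.Agent.E8helper91.ZO.Conc

/-!
# The ideal of the endomorphisms with algebraic components
-/

set_option autoImplicit false
set_option linter.unusedSectionVars false

open CategoryTheory Limits MonoidalCategory Module
open Pool.Agent.Y112.SR Pool.Agent.Y112.KD Pool.Agent.Y112.SC Pool.Agent.Y133.Half
open Pool.Agent.E8helper91.ZO

namespace Pool.Agent.E8helper91.ZK

universe v u w

section

variable {C : Type u} [Category.{v} C] [Preadditive C] [Linear ℚ C] [MonoidalCategory C]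
  [MonoidalPreadditive C] [MonoidalLinear ℚ C] [SymmetricCategory C] [RightRigidCategory C]
  {K : Type w} [Field K] {R : SuperRealisation C K} {M : C} {ι : Type*}

/-- The endomorphisms with algebraic components. -/
noncomputable def idI (c : ι → (R.H.obj M ⟶ R.H.obj M)) : Submodule ℚ (M ⟶ M) where
  carrier := {u | ∀ i, Algebraic R (R.H.map u ≫ c i)}
  add_mem' := by
    intro a b ha hb i
    obtain ⟨w, hw⟩ := ha i
    obtain ⟨w', hw'⟩ := hb i
    exact ⟨w + w', by rw [Functor.map_add, Functor.map_add, hw, hw', Preadditive.add_comp]⟩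
  zero_mem' i := ⟨0, by rw [Functor.map_zero, zero_comp]⟩
  smul_mem' := by
    intro q a ha i
    obtain ⟨w, hw⟩ := ha i
    have hK := R_charZero R
    exact ⟨q • w, by rw [R_smul, R_smul, hw, Linear.smul_comp]⟩

lemma mem_idI {c : ι → (R.H.obj M ⟶ R.H.obj M)} {u : M ⟶ M} : u ∈ idI c ↔
    ∀ i, ∃ w : M ⟶ M, R.H.map w = R.H.map u ≫ c i := Iff.rfl

lemma idI_left {c : ι → (R.H.obj M ⟶ R.H.obj M)} {u : M ⟶ M} (hu : u ∈ idI c) (v : M ⟶ M) :
    v ≫ u ∈ idI c := by
  intro i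
  obtain ⟨w, hw⟩ := hu i
  exact ⟨v ≫ w, by rw [Functor.map_comp, Functor.map_comp, hw, Category.assoc]⟩

lemma idI_right {c : ι → (R.H.obj M ⟶ R.H.obj M)}
    (hc : ∀ i (f : M ⟶ M), R.H.map f ≫ c i = c i ≫ R.H.map f) {u : M ⟶ M} (hu : u ∈ idI c)
    (v : M ⟶ M) : u ≫ v ∈ idI c := by
  intro i
  obtain ⟨w, hw⟩ := hu i
  refine ⟨w ≫ v, ?_⟩
  rw [Functor.map_comp, Functor.map_comp, hw, Category.assoc, Category.assoc, hc]

/-- The span of the ideal. -/
noncomputable def idJ (c : ι → (R.H.obj M ⟶ R.H.obj M)) : Submodule K (R.H.obj M ⟶ R.H.obj M) :=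
  Submodule.span K ((fun f : M ⟶ M => R.H.map f) '' (idI c : Set (M ⟶ M)))

variable {c : ι → (R.H.obj M ⟶ R.H.obj M)}

lemma idJ_Op {x : R.H.obj M ⟶ R.H.obj M} (hx : x ∈ idJ c) : x ∈ Op R M M := by
  refine Submodule.span_mono ?_ hx
  rintro _ ⟨f, _, rfl⟩
  exact ⟨f, rfl⟩

lemma idJ_left {x y : R.H.obj M ⟶ R.H.obj M} (hx : x ∈ idJ c) (hy : y ∈ Op R M M) :
    y ≫ x ∈ idJ c := by
  refine Op.ind (p := fun y => y ≫ x ∈ idJ c) ?_ ?_ ?_ ?_ hy
  · intro f
    refine Submodule.span_induction (p := fun x _ => R.H.map f ≫ x ∈ idJ c) ?_ ?_ ?_ ?_ hx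
    · rintro _ ⟨u, hu, rfl⟩
      refine Submodule.subset_span ⟨f ≫ u, idI_left hu f, ?_⟩
      exact Functor.map_comp _ _ _
    · rw [comp_zero]; exact Submodule.zero_mem _
    · intro a b _ _ ha hb; rw [Preadditive.comp_add]; exact Submodule.add_mem _ ha hb
    · intro q a _ ha; rw [Linear.comp_smul]; exact Submodule.smul_mem _ _ ha
  · rw [zero_comp]; exact Submodule.zero_mem _
  · intro a b ha hb; rw [Preadditive.add_comp]; exact Submodule.add_mem _ ha hb
  · intro q a ha; rw [Linear.smul_comp]; exact Submodule.smul_mem _ _ ha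

lemma idJ_right (hc : ∀ i (f : M ⟶ M), R.H.map f ≫ c i = c i ≫ R.H.map f)
    {x y : R.H.obj M ⟶ R.H.obj M} (hx : x ∈ idJ c) (hy : y ∈ Op R M M) : x ≫ y ∈ idJ c := by
  refine Op.ind (p := fun y => x ≫ y ∈ idJ c) ?_ ?_ ?_ ?_ hy
  · intro f
    refine Submodule.span_induction (p := fun x _ => x ≫ R.H.map f ∈ idJ c) ?_ ?_ ?_ ?_ hx
    · rintro _ ⟨u, hu, rfl⟩
      refine Submodule.subset_span ⟨u ≫ f, idI_right hc hu f, ?_⟩
      exact Functor.map_comp _ _ _
    · rw [zero_comp]; exact Submodule.zero_mem _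
    · intro a b _ _ ha hb; rw [Preadditive.add_comp]; exact Submodule.add_mem _ ha hb
    · intro q a _ ha; rw [Linear.smul_comp]; exact Submodule.smul_mem _ _ ha
  · rw [comp_zero]; exact Submodule.zero_mem _
  · intro a b ha hb; rw [Preadditive.comp_add]; exact Submodule.add_mem _ ha hb
  · intro q a ha; rw [Linear.comp_smul]; exact Submodule.smul_mem _ _ ha

/-- The components of an element of the span are in the span of the algebraic operators. -/
lemma idJ_comp {x : R.H.obj M ⟶ R.H.obj M} (hx : x ∈ idJ c) (i : ι) : x ≫ c i ∈ Op R M M := by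
  refine Submodule.span_induction (p := fun x _ => x ≫ c i ∈ Op R M M) ?_ ?_ ?_ ?_ hx
  · rintro _ ⟨u, hu, rfl⟩
    obtain ⟨w, hw⟩ := hu i
    change R.H.map u ≫ c i ∈ Op R M M
    rw [← hw]
    exact Op.map _
  · rw [zero_comp]; exact Submodule.zero_mem _
  · intro a b _ _ ha hb; rw [Preadditive.add_comp]; exact Submodule.add_mem _ ha hb
  · intro q a _ ha; rw [Linear.smul_comp]; exact Submodule.smul_mem _ _ ha

variable (c) in
/-- The maximal idempotent of the ideal. -/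
lemma exists_eps : ∃ e ∈ idJ c, e ≫ e = e ∧
    ∀ u ∈ idJ c, st R ((𝟙 _ - e) ≫ u) = 0 := by
  have hK := R_charZero R
  let L := (ModuleCat.homLinearEquiv (S := K) (M := R.H.obj M) (N := R.H.obj M))
  let J : Submodule K (Module.End K (R.H.obj M)) := (idJ c).map L.toLinearMap
  have hJ : ∀ a ∈ J, ∀ b ∈ J, a * b ∈ J := by
    rintro _ ⟨a, ha, rfl⟩ _ ⟨b, hb, rfl⟩
    exact ⟨b ≫ a, idJ_left ha (idJ_Op hb), rfl⟩
  obtain ⟨_, ⟨e, he, rfl⟩, hee, h⟩ := exists_max_idem hJ
  have hee' : e ≫ e = e := ModuleCat.hom_ext hee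
  refine ⟨e, he, hee', fun u hu => ?_⟩
  have h1 := h _ ⟨u, hu, rfl⟩
  set f := 𝟙 (R.H.obj M) - e with hf
  have hff : f ≫ f = f := by
    rw [hf, Preadditive.sub_comp, Preadditive.comp_sub, Preadditive.comp_sub, hee']
    simp
  have hfO : f ∈ Op R M M := Submodule.sub_mem _ (Op.id M) (idJ_Op he)
  have h2 : IsNilpotent ((f ≫ u ≫ f).hom : Module.End K (R.H.obj M)) := by
    have e1 : ((f ≫ u ≫ f).hom : Module.End K (R.H.obj M)) =
      (1 - e.hom) * u.hom * (1 - e.hom) := rfl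
    rw [e1]
    exact h1
  have h3 := st_nilp (Op.comp hfO (Op.comp (idJ_Op hu) hfO)) h2
  rw [← Category.assoc, st_comm R (Op.par hfO), ← Category.assoc, hff] at h3
  exact h3

/-- Up to numerically trivial operators, the span of the ideal contains the identity only if the
ideal does. -/
lemma exists_unit (hU : UnitQ C) {e : R.H.obj M ⟶ R.H.obj M} (he : e ∈ idJ c)
    (hN : NZ R (𝟙 _ - e)) : ∃ u ∈ idI c, NumZero hU (𝟙 M - u) := by
  have hK := R_charZero R
  obtain ⟨φ, hφ⟩ := exists_phi K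
  let b := Basis.ofVectorSpace ℚ K
  obtain ⟨d, hd, hde⟩ := exists_coords b (idI c) he
  refine ⟨d.sum fun i f => φ (b i) • f, ?_, fun g => ?_⟩
  · exact Submodule.sum_mem _ fun i _ => Submodule.smul_mem _ _ (hd i)
  · have h1 := hN _ (Op.map g)
    rw [Preadditive.sub_comp, Category.id_comp, st_sub, st_map R hU, hde, st_coords b hU,
      sub_eq_zero] at h1
    have h2 := congrArg φ h1
    have h3 := phi_cast φ 1 (trq hU M g)
    rw [one_mul, hφ, mul_one] at h3
    rw [h3, Finsupp.sum, map_sum] at h2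
    rw [Preadditive.sub_comp, Category.id_comp, trq_sub, trq_comb, h2, sub_eq_zero, Finsupp.sum]
    refine Finset.sum_congr rfl fun i _ => ?_
    rw [phi_cast, mul_comm]

lemma NZ_of_unit (hc : ∀ i (f : M ⟶ M), R.H.map f ≫ c i = c i ≫ R.H.map f) (hU : UnitQ C)
    {e : R.H.obj M ⟶ R.H.obj M} (he : e ∈ idJ c)
    (htr : ∀ u ∈ idJ c, st R ((𝟙 _ - e) ≫ u) = 0) {u : M ⟶ M} (hu : u ∈ idI c)
    (hN : NumZero hU (𝟙 M - u)) : NZ R (𝟙 _ - e) := by
  intro v hv
  have hf : 𝟙 _ - e ∈ Op R M M := Submodule.sub_mem _ (Op.id M) (idJ_Op he)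
  have h1 : (𝟙 _ - e) ≫ v = (𝟙 _ - e) ≫ R.H.map u ≫ v + (𝟙 _ - e) ≫ R.H.map (𝟙 M - u) ≫ v := by
    rw [← Preadditive.comp_add, ← Preadditive.add_comp, ← Functor.map_add, add_sub_cancel,
      CategoryTheory.Functor.map_id, Category.id_comp]
  have h2 := (numZero_iff (R := R) hU _).1 hN
  rw [h1, st_add, htr _ (idJ_right hc (Submodule.subset_span ⟨u, hu, rfl⟩) hv), zero_add,
    ← Category.assoc]
  have h3 := NZ.comp_left h2 hf v hv
  exact h3

/-- An idempotent which is orthogonal to the algebraic operators vanishes if the idempotent itself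
is of one parity. -/
lemma nilp_of_parity {π : R.H.obj M ⟶ R.H.obj M}
    (hpar : π ≫ R.par M = π ∨ π ≫ R.par M = -π) {ν : R.H.obj M ⟶ R.H.obj M}
    (hν : ν ∈ Op R M M) (hN : NZ R ν) (hc : ν ≫ π = ν) :
    IsNilpotent (ν.hom : Module.End K (R.H.obj M)) := by
  have hK := R_charZero R
  obtain ⟨q, hq1, hq2⟩ := exists_fit (ν.hom : Module.End K (R.H.obj M))
  apply hq2
  by_contra hne
  let J : Submodule K (Module.End K (R.H.obj M)) :=
    { carrier := {a | ModuleCat.ofHom a ∈ Op R M M ∧ NZ R (ModuleCat.ofHom a) ∧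
        ModuleCat.ofHom a ≫ π = ModuleCat.ofHom a}
      add_mem' := fun {a b} ha hb => ⟨Submodule.add_mem _ ha.1 hb.1, ha.2.1.add hb.2.1, by
        rw [ModuleCat.ofHom_add, Preadditive.add_comp, ha.2.2, hb.2.2]⟩
      zero_mem' := ⟨Submodule.zero_mem _, NZ.zero, by
        rw [ModuleCat.ofHom_zero, zero_comp]⟩
      smul_mem' := fun s a ha => ⟨Submodule.smul_mem _ s ha.1, ha.2.1.smul s, by
        have h1 : ModuleCat.ofHom (s • a) = s • ModuleCat.ofHom a := rfl
        rw [h1, Linear.smul_comp, ha.2.2]⟩ }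
  have hJ : ∀ a ∈ J, ∀ b ∈ J, a * b ∈ J := fun a ha b hb =>
    ⟨Op.comp hb.1 ha.1, NZ.comp_right hb.2.1 ha.1, by
      have h1 : ModuleCat.ofHom (a * b) = ModuleCat.ofHom b ≫ ModuleCat.ofHom a := rfl
      rw [h1, Category.assoc, ha.2.2]⟩
  have hνJ : ν.hom ∈ J := ⟨hν, hN, hc⟩
  have h3 := fit_mem hJ hνJ q
  set f := (Polynomial.aeval (ν.hom : Module.End K (R.H.obj M))) q * ν.hom with hf
  have h4 := h3.2.1 _ (Op.id M)
  have h5 : st R (ModuleCat.ofHom f ≫ 𝟙 _) = LinearMap.trace K (R.H.obj M) f ∨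
      st R (ModuleCat.ofHom f ≫ 𝟙 _) = - LinearMap.trace K (R.H.obj M) f := by
    rw [Category.comp_id, st, ← h3.2.2, Category.assoc]
    rcases hpar with h | h
    · left
      rw [h, h3.2.2, ModuleCat.hom_ofHom]
    · right
      rw [h, Preadditive.comp_neg, h3.2.2, ModuleCat.hom_neg, map_neg, ModuleCat.hom_ofHom]
  have h6 : LinearMap.trace K (R.H.obj M) f = 0 := by
    rcases h5 with h | h
    · rw [← h]; exact h4
    · rw [h] at h4; exact neg_eq_zero.1 h4
  rw [trace_idem (K := K) (f := f) hq1] at h6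
  have h7 : finrank K (LinearMap.range f) = 0 := by exact_mod_cast h6
  exact hne (LinearMap.range_eq_bot.1 (Submodule.finrank_eq_zero.1 h7))

/-- A projector of one parity is algebraic if it is algebraic over the coefficient field. -/
lemma alg_of_one (hU : UnitQ C) {π : R.H.obj M ⟶ R.H.obj M}
    (hπc : ∀ f : M ⟶ M, R.H.map f ≫ π = π ≫ R.H.map f) (hππ : π ≫ π = π)
    (hpar : π ≫ R.par M = π ∨ π ≫ R.par M = -π)
    (h1 : 𝟙 _ ∈ idJ (fun _ : Unit => π)) : Algebraic R π := by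
  have hK := R_charZero R
  obtain ⟨u, hu, huN⟩ := exists_unit hU h1 (by rw [sub_self]; exact NZ.zero)
  have hπO : π ∈ Op R M M := by
    have h2 := idJ_comp h1 ()
    rwa [Category.id_comp] at h2
  have hNZ := (numZero_iff (R := R) hU _).1 huN
  have hnil := nilp_of_parity (ν := R.H.map (𝟙 M - u) ≫ π) hpar (Op.comp (Op.map _) hπO)
    (NZ.comp_right hNZ hπO) (by rw [Category.assoc, hππ])
  obtain ⟨n, hn⟩ := hnil
  obtain ⟨v, z, h2, h3⟩ := exists_inv (R := R) u (n + 1)
  obtain ⟨w, hw⟩ := idI_left hu v ()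
  refine ⟨w, ?_⟩
  -- the power of the product
  have h4 : ∀ k : ℕ, ((R.H.map (𝟙 M - u) ≫ π).hom : Module.End K (R.H.obj M)) ^ (k + 1) =
      (π.hom : Module.End K (R.H.obj M)) *
        ((R.H.map (𝟙 M - u)).hom : Module.End K (R.H.obj M)) ^ (k + 1) := by
    have hcm : Commute (π.hom : Module.End K (R.H.obj M)) (R.H.map (𝟙 M - u)).hom := by
      have := congrArg ModuleCat.Hom.hom (hπc (𝟙 M - u))
      exact this
    have hid : IsIdempotentElem (π.hom : Module.End K (R.H.obj M)) := by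
      have := congrArg ModuleCat.Hom.hom hππ
      exact this
    intro k
    have e1 : ((R.H.map (𝟙 M - u) ≫ π).hom : Module.End K (R.H.obj M)) =
      (π.hom : Module.End K (R.H.obj M)) * (R.H.map (𝟙 M - u)).hom := rfl
    rw [e1, hcm.mul_pow, hid.pow_succ_eq]
  have h5 : R.H.map z ≫ π = 0 := by
    apply ModuleCat.hom_ext
    have e1 : ((R.H.map z ≫ π).hom : Module.End K (R.H.obj M)) =
      (π.hom : Module.End K (R.H.obj M)) * (R.H.map z).hom := rfl
    rw [e1, h3, ← h4 n, pow_succ, hn, zero_mul]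
    rfl
  change R.H.map w = R.H.map (v ≫ u) ≫ π at hw
  rw [hw, h2, Functor.map_sub, CategoryTheory.Functor.map_id, Preadditive.sub_comp, h5,
    Category.id_comp, sub_zero]

/-- A family of projectors is algebraic if it is algebraic over the coefficient field. -/
lemma allAlg_of_one (hU : UnitQ C) [Fintype ι] (p : Projectors R M ι) (h1 : 𝟙 _ ∈ idJ p.π) (i : ι) :
    Algebraic R (p.π i) := by
  refine alg_of_one hU (p.comm i) (p.idem i) (p.parity i) ?_
  refine Submodule.span_mono ?_ h1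
  rintro _ ⟨f, hf, rfl⟩
  exact ⟨f, fun _ => hf i, rfl⟩

end

end Pool.Agent.E8helper91.ZK
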